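import Pool.Agent.Y892.HX.Kon
import Pool.Agent.W290.FrBase
import Pool.Agent.W290.FrHex

set_option autoImplicit false

/-!
# Embeddings of finite generalized hexagons in semi-finite hexagons with smaller lines

The free construction over an abstract base (`Pool.Agent.Y892.HX`), where the base is a finite
generalized hexagon whose lines have been enlarged by new points, and where the colouring problems are
solved greedily: first the old points, whose number of old neighbours is smaller than the number of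
colours, and then the new points, each of which is on one line only.
-/

namespace Pool.Agent.Y767.HG

open Pool.Agent.W290.Fr Pool.Agent.Y892.HX

/-! ### Greedy colouring -/

section greedy

variable {X : Type}

theorem ext_one [DecidableEq X] (R : X → X → Prop) (hR : ∀ x y, R x y → R y x)
    (hirr : ∀ x, ¬ R x x) (D : ℕ) (T : Finset X) (x : X) (hx : x ∉ T)
    (hdeg : {y | y ∈ T ∧ R x y}.ncard < D) (f : X → ℕ) (hf : ∀ y, f y < D)
    (hp : ∀ y ∈ T, ∀ z ∈ T, R y z → f y ≠ f z) :
    ∃ g : X → ℕ, (∀ y, g y < D) ∧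
      ∀ y ∈ insert x T, ∀ z ∈ insert x T, R y z → g y ≠ g z := by
  classical
  have hfin : {y | y ∈ T ∧ R x y}.Finite := T.finite_toSet.subset fun y hy => hy.1
  obtain ⟨c, hc, hcn⟩ : ∃ c ∈ (Set.Iio D : Set ℕ), c ∉ f '' {y | y ∈ T ∧ R x y} := by
    refine Set.exists_mem_notMem_of_ncard_lt_ncard ?_ (hfin.image f)
    refine (Set.ncard_image_le hfin).trans_lt ?_
    rw [Set.ncard_eq_toFinset_card' (Set.Iio D)]
    simpa using hdeg
  refine ⟨Function.update f x c, fun y => ?_, ?_⟩
  · by_cases hy : y = x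
    · subst hy
      rw [Function.update_self]
      exact hc
    · rw [Function.update_of_ne hy]
      exact hf y
  · intro y hy z hz hyz
    rw [Finset.mem_insert] at hy hz
    rcases hy with rfl | hy
    · rcases hz with rfl | hz
      · exact absurd hyz (hirr _)
      · have hzx : z ≠ y := by
          rintro rfl
          exact hx hz
        rw [Function.update_self, Function.update_of_ne hzx]
        intro h
        exact hcn ⟨z, ⟨hz, hyz⟩, h.symm⟩
    · have hyx : y ≠ x := by
        rintro rfl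
        exact hx hy
      rcases hz with rfl | hz
      · rw [Function.update_self, Function.update_of_ne hyx]
        intro h
        exact hcn ⟨y, ⟨hy, hR _ _ hyz⟩, h⟩
      · have hzx : z ≠ x := by
          rintro rfl
          exact hx hz
        rw [Function.update_of_ne hyx, Function.update_of_ne hzx]
        exact hp y hy z hz hyz

theorem greedy [Finite X] (R : X → X → Prop) (hR : ∀ x y, R x y → R y x)
    (hirr : ∀ x, ¬ R x x) (D : ℕ) (hD : 1 ≤ D) (old : X → Prop)
    (h1 : ∀ x, old x → {y | old y ∧ R x y}.ncard < D)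
    (h2 : ∀ x, ¬ old x → {y | R x y}.ncard < D) :
    ∃ f : X → ℕ, (∀ x, f x < D) ∧ ∀ x y, R x y → f x ≠ f y := by
  classical
  have := Fintype.ofFinite X
  have step1 : ∀ T : Finset X, (∀ x ∈ T, old x) → ∃ f : X → ℕ, (∀ y, f y < D) ∧
      ∀ y ∈ T, ∀ z ∈ T, R y z → f y ≠ f z := by
    intro T
    induction T using Finset.induction_on with
    | empty =>
      intro _
      exact ⟨fun _ => 0, fun _ => hD, fun y hy => absurd hy (Finset.notMem_empty _)⟩
    | insert x T hx ih =>
      intro hT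
      obtain ⟨f, hf, hp⟩ := ih fun y hy => hT y (Finset.mem_insert_of_mem hy)
      refine ext_one R hR hirr D T x hx ?_ f hf hp
      refine (Set.ncard_le_ncard ?_ (Set.toFinite _)).trans_lt
        (h1 x (hT x (Finset.mem_insert_self _ _)))
      rintro y ⟨hy, hxy⟩
      exact ⟨hT y (Finset.mem_insert_of_mem hy), hxy⟩
  have step2 : ∀ T : Finset X, (∀ x ∈ T, ¬ old x) → ∃ f : X → ℕ, (∀ y, f y < D) ∧
      ∀ y ∈ T ∪ Finset.univ.filter old, ∀ z ∈ T ∪ Finset.univ.filter old,
        R y z → f y ≠ f z := by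
    intro T
    induction T using Finset.induction_on with
    | empty =>
      intro _
      obtain ⟨f, hf, hp⟩ := step1 (Finset.univ.filter old) fun x hx => (Finset.mem_filter.1 hx).2
      refine ⟨f, hf, fun y hy z hz => ?_⟩
      rw [Finset.empty_union] at hy hz
      exact hp y hy z hz
    | insert x T hx ih =>
      intro hT
      obtain ⟨f, hf, hp⟩ := ih fun y hy => hT y (Finset.mem_insert_of_mem hy)
      rw [Finset.insert_union]
      have hxn : ¬ old x := hT x (Finset.mem_insert_self _ _)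
      refine ext_one R hR hirr D _ x ?_ ?_ f hf hp
      · rw [Finset.mem_union, Finset.mem_filter]
        rintro (h | ⟨_, h⟩)
        · exact hx h
        · exact hxn h
      · refine (Set.ncard_le_ncard ?_ (Set.toFinite _)).trans_lt (h2 x hxn)
        rintro y ⟨_, hxy⟩
        exact hxy
  obtain ⟨f, hf, hp⟩ := step2 (Finset.univ.filter fun x => ¬ old x)
    fun x hx => (Finset.mem_filter.1 hx).2
  have hall : ∀ x : X, x ∈ (Finset.univ.filter fun x => ¬ old x) ∪ Finset.univ.filter old := by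
    intro x
    rw [Finset.mem_union, Finset.mem_filter, Finset.mem_filter]
    by_cases h : old x
    · exact Or.inr ⟨Finset.mem_univ _, h⟩
    · exact Or.inl ⟨Finset.mem_univ _, h⟩
  exact ⟨f, hf, fun x y hxy => hp x (hall x) y (hall y) hxy⟩

end greedy

variable {X M : Type} {on : X → M → Prop}

/-- Greedy colouring of the points of a base. -/
theorem gre [Finite X] (old : X → Prop)
    (hnew : ∀ x, ¬ old x → ∀ K K', on x K → on x K' → K = K') (D0 : ℕ)
    (hold : ∀ x, old x → {y | old y ∧ y ≠ x ∧ ∃ K, on x K ∧ on y K}.ncard < D0)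
    (S : X → Prop) (D : ℕ) (hDD : D0 ≤ D) (hD1 : 1 ≤ D) (hD : ∀ K, {x | on x K ∧ S x}.ncard ≤ D) :
    ∃ f : X → ℕ, (∀ x, f x < D) ∧
      ∀ K x y, on x K → on y K → x ≠ y → S x → S y → f x ≠ f y := by
  classical
  obtain ⟨f, h1, h2⟩ := greedy (fun x y => x ≠ y ∧ S x ∧ S y ∧ ∃ K, on x K ∧ on y K)
    (fun x y ⟨a, b, c, K, d, e⟩ => ⟨a.symm, c, b, K, e, d⟩) (fun x h => h.1 rfl) D hD1 old
    (by
      intro x hx
      refine (Set.ncard_le_ncard ?_ (Set.toFinite _)).trans_lt ((hold x hx).trans_le hDD)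
      rintro y ⟨hy, hxy, _, _, hK⟩
      exact ⟨hy, hxy.symm, hK⟩)
    (by
      intro x hx
      by_cases hne : ∃ y, x ≠ y ∧ S x ∧ S y ∧ ∃ K, on x K ∧ on y K
      · obtain ⟨y0, hxy0, hSx, hSy0, K, hxK, _⟩ := hne
        have hsub : {y | x ≠ y ∧ S x ∧ S y ∧ ∃ K, on x K ∧ on y K} ⊆
            {y | on y K ∧ S y} \ {x} := by
          rintro y ⟨hxy, _, hSy, K', hxK', hyK'⟩
          rw [hnew x hx K' K hxK' hxK] at hyK'
          exact ⟨⟨hyK', hSy⟩, fun h => hxy (Set.mem_singleton_iff.1 h).symm⟩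
        have h3 := Set.ncard_le_ncard hsub (Set.toFinite _)
        have hxm : x ∈ {y | on y K ∧ S y} := ⟨hxK, hSx⟩
        rw [Set.ncard_sdiff_singleton_of_mem hxm] at h3
        have h4 := hD K
        have h5 : 0 < {y | on y K ∧ S y}.ncard := (Set.ncard_pos (Set.toFinite _)).2 ⟨x, hxm⟩
        omega
      · have : {y | x ≠ y ∧ S x ∧ S y ∧ ∃ K, on x K ∧ on y K} = ∅ := by
          ext y
          simp only [Set.mem_ofPred_eq, Set.mem_empty_iff_false, iff_false]
          exact fun h => hne ⟨y, h⟩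
        rw [this, Set.ncard_empty]
        omega)
  exact ⟨f, h1, fun K x y hx hy hne hSx hSy => h2 x y ⟨hne, hSx, hSy, K, hx, hy⟩⟩

section count

variable {s : ℕ}

/-- bases with free points on the lines -/
theorem baseX_gre [Finite X] (old : X → Prop)
    (hnew : ∀ x, ¬ old x → ∀ K K', on x K → on x K' → K = K')
    (hold : ∀ x, old x → {y | old y ∧ y ≠ x ∧ ∃ K, on x K ∧ on y K}.ncard < s - 1)
    (hcard : ∀ K, {x | on x K}.ncard = s + 1) (hs : 2 ≤ s)
    (hM : ∀ φ ψ : X → ℕ, (∀ u, φ u ≤ 3) → (∀ u, ψ u ≤ 3) → (∀ K, PatX on φ K) →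
      (∀ K, PatX on ψ K) → (∀ u, φ u = 0 → ψ u = 2) → (∀ u, ψ u = 0 → φ u = 2) →
      (∀ u, φ u = 1 → ψ u = 3) → (∀ u, ψ u = 1 → φ u = 3) →
      ∃ M0 : X → Prop, (∀ x, ψ x = 1 → M0 x) ∧ (∀ x, M0 x → φ x = 3 ∧ ψ x ≠ 2) ∧
        (∀ K, (∀ u, on u K → ψ u ≠ 0) → ∀ x y, on x K → on y K → M0 x → M0 y → x = y) ∧
        (∀ K, (∀ u, on u K → ψ u ≠ 0) → (∃ x, on x K ∧ φ x = 3) → ∃ x, on x K ∧ M0 x)) :
    BaseX s on := by
  classical
  have hfin : ∀ (p : X → Prop), {x | p x}.Finite := fun p => Set.toFinite _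
  refine ⟨?_, ?_, ?_⟩
  · intro φ hφ hP
    obtain ⟨f, h1, h2⟩ := gre old hnew (s - 1) hold (fun x => φ x = 3) s (by omega) (by omega) (by
      intro K
      by_cases hex : ∃ u, on u K ∧ φ u = 3
      · obtain ⟨u, hu, hu3⟩ := hex
        obtain ⟨g, hg, hg2, -⟩ := patX_gate (hP K) hφ hu hu3 (by rw [hcard]; omega)
        have hsub : {x | on x K ∧ φ x = 3} ⊆ {x | on x K} \ {g} := by
          rintro x ⟨hx, hx3⟩
          refine ⟨hx, ?_⟩
          rintro rfl
          omega
        have h3 := Set.ncard_le_ncard hsub (Set.toFinite _)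
        rw [Set.ncard_sdiff_singleton_of_mem (show g ∈ {x | on x K} from hg), hcard] at h3
        simpa using h3
      · have : {x | on x K ∧ φ x = 3} = ∅ := by
          ext x
          simp only [Set.mem_ofPred_eq, Set.mem_empty_iff_false, iff_false]
          exact fun h => hex ⟨x, h⟩
        rw [this]; simp)
    exact ⟨f, h1, fun K u v hu hv huv h3 h3' => h2 K u v hu hv huv h3 h3'⟩
  · intro φ ψ hφ hψ hP hQ hφψ
    obtain ⟨f, h1, h2⟩ := gre old hnew (s - 1) hold (fun x => φ x = 3 ∧ ψ x = 3) (s - 1) (by omega) (by omega) (by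
      intro K
      by_cases hex : ∃ u, on u K ∧ φ u = 3 ∧ ψ u = 3
      · obtain ⟨u, hu, hu3, hu3'⟩ := hex
        obtain ⟨g, hg, hg2, -⟩ := patX_gate (hP K) hφ hu hu3 (by rw [hcard]; omega)
        obtain ⟨h, hh, hh2, -⟩ := patX_gate (hQ K) hψ hu hu3' (by rw [hcard]; omega)
        have hne : g ≠ h := by
          rintro rfl
          have := hφψ g (by omega)
          omega
        have hsub : {x | on x K ∧ φ x = 3 ∧ ψ x = 3} ⊆ ({x | on x K} \ {g}) \ {h} := by
          rintro x ⟨hx, hx3, hx3'⟩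
          refine ⟨⟨hx, ?_⟩, ?_⟩
          · rintro rfl
            omega
          · rintro rfl
            omega
        have h3 := Set.ncard_le_ncard hsub (Set.toFinite _)
        rw [Set.ncard_sdiff_singleton_of_mem (show h ∈ {x | on x K} \ {g} from
            ⟨hh, fun h' => hne (by simpa using h'.symm)⟩),
          Set.ncard_sdiff_singleton_of_mem (show g ∈ {x | on x K} from hg), hcard] at h3
        simpa using h3
      · have : {x | on x K ∧ φ x = 3 ∧ ψ x = 3} = ∅ := by
          ext x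
          simp only [Set.mem_ofPred_eq, Set.mem_empty_iff_false, iff_false]
          exact fun h => hex ⟨x, h⟩
        rw [this]; simp)
    exact ⟨f, h1, fun K u v hu hv huv h3 h3' h4 h4' => h2 K u v hu hv huv ⟨h3, h3'⟩ ⟨h4, h4'⟩⟩
  · intro φ ψ hφ hψ hP hQ h00 h01 h10 h11
    obtain ⟨M0, m1, m2, m3, m4⟩ := hM φ ψ hφ hψ hP hQ h00 h01 h10 h11
    obtain ⟨f, h1, h2⟩ := gre old hnew (s - 1) hold (fun x => φ x = 3 ∧ ¬ M0 x) (s - 1) (by omega) (by omega) (by
      intro K
      by_cases hz : ∀ u, on u K → ψ u ≠ 0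
      · by_cases hex : ∃ u, on u K ∧ φ u = 3
        · obtain ⟨z, hz1, hz2⟩ := m4 K hz hex
          obtain ⟨u, hu, hu3⟩ := hex
          obtain ⟨g, hg, hg2, -⟩ := patX_gate (hP K) hφ hu hu3 (by rw [hcard]; omega)
          have hne : g ≠ z := by
            rintro rfl
            have := (m2 g hz2).1
            omega
          have hsub : {x | on x K ∧ φ x = 3 ∧ ¬ M0 x} ⊆ ({x | on x K} \ {g}) \ {z} := by
            rintro x ⟨hx, hx3, hx3'⟩
            refine ⟨⟨hx, ?_⟩, ?_⟩
            · rintro rfl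
              omega
            · rintro rfl
              exact hx3' hz2
          have h3 := Set.ncard_le_ncard hsub (Set.toFinite _)
          rw [Set.ncard_sdiff_singleton_of_mem (show z ∈ {x | on x K} \ {g} from
              ⟨hz1, fun h' => hne (by simpa using h'.symm)⟩),
            Set.ncard_sdiff_singleton_of_mem (show g ∈ {x | on x K} from hg), hcard] at h3
          simpa using h3
        · have : {x | on x K ∧ φ x = 3 ∧ ¬ M0 x} = ∅ := by
            ext x
            simp only [Set.mem_ofPred_eq, Set.mem_empty_iff_false, iff_false]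
            exact fun h => hex ⟨x, h.1, h.2.1⟩
          rw [this]; simp
      · push Not at hz
        obtain ⟨r, hr, hr0⟩ := hz
        have : {x | on x K ∧ φ x = 3 ∧ ¬ M0 x} = ∅ := by
          ext x
          simp only [Set.mem_ofPred_eq, Set.mem_empty_iff_false, iff_false]
          rintro ⟨hx, hx3, hxM⟩
          obtain ⟨g, hg, hgK⟩ := hQ K
          have hrg : r = g := by
            by_contra hne
            have := hgK r hr hne
            omega
          subst hrg
          have hxr : x ≠ r := by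
            rintro rfl
            have := h01 x hr0
            omega
          exact hxM (m1 x (by rw [hgK x hx hxr, hr0]))
        rw [this]; simp)
    refine ⟨fun x => if M0 x then 0 else if φ x = 3 then f x + 1 else 0, ?_, ?_⟩
    · intro u
      refine ⟨?_, fun h3 => ⟨fun h => ?_, fun h => ?_⟩⟩
      · have := h1 u
        simp only
        split_ifs <;> omega
      · simp [m1 u h]
      · have hnot : ¬ M0 u := fun hM => (m2 u hM).2 h
        simp [hnot, h3]
    · intro K hK u v hu hv huv h3 h3'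
      by_cases hMu : M0 u <;> by_cases hMv : M0 v
      · exact absurd (m3 K hK u v hu hv hMu hMv) huv
      · simp [hMu, hMv, h3']
      · simp [hMu, hMv, h3]
      · simp only [hMu, hMv, h3, h3', if_true, if_false]
        have := h2 K u v hu hv huv ⟨h3, hMu⟩ ⟨h3', hMv⟩
        omega

end count

/-! ### Enlarged hexagons -/

variable {P₀ L₀ : Type} {I₀ : P₀ → L₀ → Prop} {d : P₀ → P₀ → ℕ}

/-- the enlarged hexagon is a base if its lines get at least three new points and there are enough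
colours for the old points -/
theorem baseX_hex [Finite P₀] [Finite L₀] [Nonempty P₀] (H : FH I₀ d) {s k m : ℕ}
    (hk : ∀ K, {p | I₀ p K}.ncard ≤ k) (hm : ∀ p, {q | q ≠ p ∧ ∃ K, I₀ p K ∧ I₀ q K}.ncard ≤ m)
    (hks : k + 2 ≤ s) (hms : m + 2 ≤ s) : BaseX s (XXon I₀ s) := by
  classical
  have hcard : ∀ K : L₀, {x : P₀ | I₀ x K}.ncard ≤ s := fun K => (hk K).trans (by omega)
  have HX := preX H hcard
  have hne : Nonempty (XX I₀ s) := ⟨XXold s (Classical.arbitrary P₀)⟩
  refine baseX_gre (fun x => ∃ p, x = XXold s p) ?_ ?_ HX.card (by omega) ?_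
  · intro x hx K K' h1 h2
    rcases XX.cases x with ⟨p, rfl⟩ | ⟨N, j, hj, rfl⟩
    · exact absurd ⟨p, rfl⟩ hx
    · have e1 : N = K := h1
      have e2 : N = K' := h2
      rw [← e1, ← e2]
  · rintro x ⟨p, rfl⟩
    have hsub : {y | (∃ q, y = XXold s q) ∧ y ≠ XXold s p ∧
        ∃ K, XXon I₀ s (XXold s p) K ∧ XXon I₀ s y K} ⊆
        (XXold s : P₀ → XX I₀ s) '' {q | q ≠ p ∧ ∃ K, I₀ p K ∧ I₀ q K} := by
      rintro y ⟨⟨q, rfl⟩, hqp, K, h1, h2⟩
      exact ⟨q, ⟨fun h => hqp (by rw [h]), K, h1, h2⟩, rfl⟩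
    have h3 := Set.ncard_le_ncard hsub (Set.toFinite _)
    have h4 := Set.ncard_image_le (f := (XXold s : P₀ → XX I₀ s))
      (Set.toFinite {q | q ≠ p ∧ ∃ K, I₀ p K ∧ I₀ q K})
    have h5 := hm p
    omega
  · intro φ ψ hφ hψ hP hQ _ _ _ h11
    refine m0_pend (fun K => by rw [HX.card K]; omega) ?_ φ ψ hφ hψ hP hQ h11
    intro K
    have hinj : Function.Injective (fun i : Fin 3 =>
        (XXnew (s := s) K ⟨k + i.val, by omega⟩
          ((hk K).trans (by simp)) : XX I₀ s)) := by
      intro i j hij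
      have := (XXnew_inj.1 hij).2
      rw [Fin.mk.injEq] at this
      exact Fin.ext (by omega)
    have hsub : Set.range (fun i : Fin 3 =>
        (XXnew (s := s) K ⟨k + i.val, by omega⟩
          ((hk K).trans (by simp)) : XX I₀ s)) ⊆
        {x | XXon I₀ s x K ∧ ∀ K', XXon I₀ s x K' → K' = K} := by
      rintro _ ⟨i, rfl⟩
      refine ⟨XXon_new.2 rfl, ?_⟩
      intro K' hK'
      exact (XXon_new.1 hK').symm
    have h1 := Set.ncard_le_ncard hsub (Set.toFinite _)
    rw [← Set.image_univ, Set.ncard_image_of_injective _ hinj, Set.ncard_univ,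
      Nat.card_eq_fintype_card, Fintype.card_fin] at h1
    exact h1

/-- from the limit to the geometry -/
theorem geometry_of {s : ℕ} {L : Set (Finset ℕ)} {δ : ℕ → ℕ → ℕ} (HL : Lim s L δ) (hs : 1 ≤ s) :
    (Pool.Agent.W290.HexGraph.IG (inc L)).ediam = 6 ∧ (Pool.Agent.W290.HexGraph.IG (inc L)).egirth = 12 ∧
      (∀ l, {p | inc L p l}.Finite ∧ {p | inc L p l}.ncard = s + 1) ∧
      (∀ p, {l | inc L p l}.Infinite) := by
  refine ⟨HL.ediam hs, HL.egirth hs, ?_, ?_⟩
  · intro l
    have h1 : {p : ℕ | inc L p l} = (l.1 : Set ℕ) := rfl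
    rw [h1]
    refine ⟨l.1.finite_toSet, ?_⟩
    rw [Set.ncard_coe_finset, HL.card l.1 l.2]
  · intro p hfin
    apply HL.inf p
    have h2 : {K | K ∈ L ∧ p ∈ K} = Subtype.val '' {l : {K // K ∈ L} | inc L p l} := by
      ext K
      constructor
      · rintro ⟨hK, hp⟩
        exact ⟨⟨K, hK⟩, hp, rfl⟩
      · rintro ⟨l, hl, rfl⟩
        exact ⟨l.2, hl⟩
    rw [h2]
    exact hfin.image _

theorem ncard_col [Finite P₀] [Finite L₀] {a b : ℕ} (hpts : ∀ l, {p | I₀ p l}.ncard ≤ a + 1)
    (hlines : ∀ p, {l | I₀ p l}.ncard ≤ b + 1) (p : P₀) :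
    {q | q ≠ p ∧ ∃ K, I₀ p K ∧ I₀ q K}.ncard ≤ a * (b + 1) := by
  classical
  have := Fintype.ofFinite P₀
  have := Fintype.ofFinite L₀
  let T : Finset L₀ := Finset.univ.filter fun K => I₀ p K
  let U : Finset P₀ := T.biUnion fun K => (Finset.univ.filter fun q => I₀ q K).erase p
  have hT : T.card ≤ b + 1 := by
    refine le_trans (le_of_eq ?_) (hlines p)
    rw [Set.ncard_eq_toFinset_card']
    congr 1
    ext K
    simp [T]
  have hU : U.card ≤ T.card * a := by
    refine Finset.card_biUnion_le_card_mul T _ a fun K hK => ?_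
    have hpK : p ∈ Finset.univ.filter fun q => I₀ q K := by
      simpa [T] using hK
    rw [Finset.card_erase_of_mem hpK]
    have h1 := hpts K
    rw [Set.ncard_eq_toFinset_card'] at h1
    have h2 : ({q | I₀ q K} : Set P₀).toFinset = Finset.univ.filter fun q => I₀ q K := by
      ext q
      simp
    rw [h2] at h1
    omega
  have hsub : {q | q ≠ p ∧ ∃ K, I₀ p K ∧ I₀ q K} ⊆ (U : Set P₀) := by
    rintro q ⟨hqp, K, hp, hq⟩
    rw [Finset.mem_coe, Finset.mem_biUnion]
    refine ⟨K, by simpa [T] using hp, ?_⟩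
    rw [Finset.mem_erase]
    exact ⟨hqp, by simpa using hq⟩
  refine (Set.ncard_le_ncard hsub (Set.toFinite _)).trans ?_
  rw [Set.ncard_coe_finset]
  calc U.card ≤ T.card * a := hU
    _ ≤ (b + 1) * a := Nat.mul_le_mul_right _ hT
    _ = a * (b + 1) := Nat.mul_comm _ _

open Pool.Agent.W290.HexGraph in
/-- embeddings with lines of moderate size -/
theorem embed_small [Finite P₀] [Finite L₀] (hdiam : (IG I₀).ediam = 6)
    (hgirth : (IG I₀).egirth = 12) {a b s : ℕ} (ha : 1 ≤ a) (hb : 1 ≤ b)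
    (hpts : ∀ l, {p | I₀ p l}.ncard ≤ a + 1) (hlines : ∀ p, {l | I₀ p l}.ncard ≤ b + 1)
    (hs : a * (b + 1) + 2 ≤ s) :
    ∃ (P L : Type) (I : P → L → Prop), (IG I).ediam = 6 ∧ (IG I).egirth = 12 ∧
      (∀ l, {p | I p l}.Finite ∧ {p | I p l}.ncard = s + 1) ∧ (∀ p, {l | I p l}.Infinite) ∧
      ∃ (φ : P₀ → P) (ψ : L₀ → L), Function.Injective φ ∧ Function.Injective ψ ∧
        ∀ p l, I (φ p) (ψ l) ↔ I₀ p l := by
  have hne : Nonempty P₀ := nonempty_points I₀ hdiam
  obtain ⟨d, H⟩ := fh_of_graph I₀ hdiam hgirth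
  have hab : a + 1 ≤ a * (b + 1) := by nlinarith
  have hcard : ∀ K : L₀, {x : P₀ | I₀ x K}.ncard ≤ s := fun K => (hpts K).trans (by omega)
  have hne' : Nonempty (XX I₀ s) := ⟨XXold s (Classical.arbitrary P₀)⟩
  obtain ⟨LL, δ, HL, φ, ψ, h1, h2, h3, h4⟩ :=
    embed_full (preX H hcard) (baseX_hex H hpts (ncard_col hpts hlines) (by omega) hs) (by omega)
  obtain ⟨g1, g2, g3, g4⟩ := geometry_of HL (by omega)
  refine ⟨ℕ, {K // K ∈ LL}, inc LL, g1, g2, g3, g4, fun x => φ (XXold s x), ψ, ?_, h2, ?_⟩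
  · intro x y h
    exact XXold_inj.1 (h1 h)
  · intro x K
    exact h3 _ _

end Pool.Agent.Y767.HG
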